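import Pool.Agent.H869R3.RT.Inv

set_option autoImplicit false

/-!
Changing the first half of a join by a set which is truth-table reducible to the second half.
-/

namespace Pool.Agent.H869R3.RT

open Encodable Pool.Agent.Helper227 Pool.Agent.H548R2.Post
open Nat.Partrec (Code)

variable {δ : ℕ → ℕ → List Bool → Bool} {u : ℕ → ℕ → ℕ}

/-- the entries at odd places -/
def od (σ : List Bool) : List Bool :=
  (List.range (σ.length / 2)).map (fun j => σ.getD (2 * j + 1) false)

theorem od_pre (X : ℕ → Bool) (k : ℕ) : od (pre X (2 * k)) = pre (fun j => X (2 * j + 1)) k := by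
  unfold od
  rw [length_pre]
  have h1 : 2 * k / 2 = k := by omega
  rw [h1]
  conv_rhs => unfold pre
  refine List.map_congr_left fun j hj => ?_
  have := List.mem_range.1 hj
  exact pre_getD X (2 * k) (2 * j + 1) false (by omega)

theorem od_prim : Primrec od := by
  unfold od
  refine Primrec.list_map (Primrec.list_range.comp
    (Primrec.nat_div.comp Primrec.list_length (Primrec.const 2))) ?_
  exact (Primrec.list_getD false).comp Primrec.fst
    (Primrec.succ.comp (Primrec.nat_mul.comp (Primrec.const 2) Primrec.snd))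

def δ2 (δ : ℕ → ℕ → List Bool → Bool) (i n : ℕ) (σ : List Bool) : Bool :=
  cond (decide (n % 2 = 0)) (δ i (n / 2) (od σ)) false

def u2 (u : ℕ → ℕ → ℕ) (i n : ℕ) : ℕ := 2 * u i (n / 2)

theorem δ2_comp (hδ : Computable fun x : (ℕ × ℕ) × List Bool => δ x.1.1 x.1.2 x.2) :
    Computable fun x : (ℕ × ℕ) × List Bool => δ2 δ x.1.1 x.1.2 x.2 := by
  have h1 : Computable fun x : (ℕ × ℕ) × List Bool => decide (x.1.2 % 2 = 0) :=
    (PrimrecPred.decide (Primrec.eq.comp
      (Primrec.nat_mod.comp (Primrec.snd.comp Primrec.fst) (Primrec.const 2))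
      (Primrec.const 0))).to_comp
  have h2 : Computable fun x : (ℕ × ℕ) × List Bool =>
      (((x.1.1, x.1.2 / 2), od x.2) : (ℕ × ℕ) × List Bool) :=
    (((Primrec.fst.comp Primrec.fst).pair (Primrec.nat_div.comp (Primrec.snd.comp Primrec.fst)
      (Primrec.const 2))).pair (od_prim.comp Primrec.snd)).to_comp
  have h3 : Computable fun x : (ℕ × ℕ) × List Bool => δ x.1.1 (x.1.2 / 2) (od x.2) :=
    Computable.comp (f := fun x : (ℕ × ℕ) × List Bool => δ x.1.1 x.1.2 x.2)
      (g := fun x : (ℕ × ℕ) × List Bool => (((x.1.1, x.1.2 / 2), od x.2) : (ℕ × ℕ) × List Bool))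
      hδ h2
  exact Computable.cond h1 h3 (Computable.const false)

theorem u2_comp (hu : Computable₂ u) : Computable₂ (u2 u) := by
  have h1 : Computable fun x : ℕ × ℕ => u x.1 (x.2 / 2) :=
    hu.comp Computable.fst (Primrec.nat_div.comp Primrec.snd (Primrec.const 2)).to_comp
  have h2 : Computable₂ fun a b : ℕ => a * b := Primrec.nat_mul.to_comp
  exact Computable₂.comp (f := fun a b : ℕ => a * b) (g := fun _ : ℕ × ℕ => 2)
    (h := fun x : ℕ × ℕ => u x.1 (x.2 / 2)) h2 (Computable.const 2) h1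

theorem Fam2 (X : ℕ → Bool) (i n : ℕ) : Fam (δ2 δ) (u2 u) X i n =
    cond (decide (n % 2 = 0)) (Fam δ u (fun j => X (2 * j + 1)) i (n / 2)) false := by
  unfold Fam δ2 u2
  rw [od_pre]

theorem Fam2_inv (X : ℕ → Bool) (i j n : ℕ) :
    Fam (δ2 δ) (u2 u) (fun m => xor (X m) (Fam (δ2 δ) (u2 u) X i m)) j n =
      Fam (δ2 δ) (u2 u) X j n := by
  rw [Fam2 (fun m => xor (X m) (Fam (δ2 δ) (u2 u) X i m)) j n, Fam2 X j n]
  have h1 : (fun k => (fun m => xor (X m) (Fam (δ2 δ) (u2 u) X i m)) (2 * k + 1)) =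
      fun k => X (2 * k + 1) := by
    funext k
    simp only [Fam2]
    have h2 : ¬ (2 * k + 1) % 2 = 0 := by omega
    simp [h2]
  rw [h1]

theorem join_odd (Y Z : ℕ → Bool) : (fun j => join Y Z (2 * j + 1)) = Z := by
  funext j
  unfold join
  have h1 : ¬ (2 * j + 1) % 2 = 0 := by omega
  have h2 : (2 * j + 1) / 2 = j := by omega
  rw [if_neg h1, h2]

theorem main_join (hδ : Computable fun x : (ℕ × ℕ) × List Bool => δ x.1.1 x.1.2 x.2)
    (hu : Computable₂ u) :
    ∃ e : ℕ, PostIndex e ∧ ∀ Y Y' Z : ℕ → Bool,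
      (∃ i, ∀ n, xor (Y n) (Y' n) = Fam δ u Z i n) →
      TLe (chr (WE (join Y Z) e)) (chr (WE (join Y' Z) e)) ∧
        TLe (chr (WE (join Y' Z) e)) (chr (WE (join Y Z) e)) := by
  obtain ⟨e, h1, h2⟩ := main_inv (δ2_comp hδ) (u2_comp hu) Fam2_inv
  refine ⟨e, h1, fun Y Y' Z => ?_⟩
  rintro ⟨i, hi⟩
  refine h2 (join Y Z) (join Y' Z) ⟨i, fun n => ?_⟩
  rw [Fam2, join_odd]
  unfold join
  by_cases hn : n % 2 = 0
  · simp only [hn, if_true, decide_true, cond_true]
    exact hi (n / 2)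
  · simp [hn]

/-! The family of all sets which are truth-table reducible to the oracle by a primitive recursive
procedure with a primitive recursive bound on the use. -/

/-- the universal function -/
noncomputable def ug (x : ℕ × ℕ) : Part ℕ :=
  cond (t49_nr (Denumerable.ofNat Code x.1)) ((Denumerable.ofNat Code x.1).eval x.2) (Part.some 0)

theorem ug_partrec : Partrec ug := by
  refine Partrec.cond ?_ ?_ ?_
  · exact (t49_nr_prim.comp ((Primrec.ofNat Code).comp Primrec.fst)).to_comp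
  · exact Code.eval_part.comp ((Primrec.ofNat Code).comp Primrec.fst).to_comp Computable.snd
  · exact (Computable.const 0).partrec

theorem ug_dom (x : ℕ × ℕ) : (ug x).Dom := by
  unfold ug
  cases h : t49_nr (Denumerable.ofNat Code x.1)
  · exact trivial
  · obtain ⟨v, hv⟩ := t49_total _ h x.2
    show ((Denumerable.ofNat Code x.1).eval x.2).Dom
    exact Part.dom_iff_mem.2 ⟨v, hv⟩

theorem exists_univ_nat : ∃ U : ℕ → ℕ → ℕ, Computable₂ U ∧
    ∀ f : ℕ → ℕ, Primrec f → ∃ i, ∀ n, U i n = f n := by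
  refine ⟨fun i n => (ug (i, n)).get (ug_dom (i, n)), ?_, ?_⟩
  · refine Partrec.of_eq_tot ug_partrec fun x => ?_
    exact Part.get_mem _
  · intro f hf
    obtain ⟨c, hc, hev⟩ := t49_complete (Primrec.nat_iff.1 hf)
    refine ⟨encode c, fun n => ?_⟩
    have h2 : f n ∈ ug (encode c, n) := by
      unfold ug
      rw [Denumerable.ofNat_encode, hc]
      exact hev n
    exact Part.get_eq_of_mem h2 _

theorem main_both' (hδ : Computable fun x : (ℕ × ℕ) × List Bool => δ x.1.1 x.1.2 x.2)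
    (hu : Computable₂ u) :
    ∃ e : ℕ, PostIndex e ∧ ∀ Y Y' Z : ℕ → Bool,
      ((∃ i, ∀ n, xor (Y n) (Y' n) = Fam δ u Z i n) ∨
        ∃ (f : ℕ × List Bool → Bool) (v : ℕ → ℕ), Primrec f ∧ Primrec v ∧
          ∀ n, xor (Y n) (Y' n) = f (n, pre Z (v n))) →
      TLe (chr (WE (join Y Z) e)) (chr (WE (join Y' Z) e)) ∧
        TLe (chr (WE (join Y' Z) e)) (chr (WE (join Y Z) e)) := by
  obtain ⟨U, hU, hUf⟩ := exists_univ_nat
  let δ3 : ℕ → ℕ → List Bool → Bool := fun i n σ =>
    cond (decide (i % 2 = 0)) (δ (i / 2) n σ)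
      (decide (U (i / 2).unpair.1 (encode ((n, σ) : ℕ × List Bool)) = 1))
  let u3 : ℕ → ℕ → ℕ := fun i n =>
    cond (decide (i % 2 = 0)) (u (i / 2) n) (U (i / 2).unpair.2 n)
  have hδ3 : Computable fun x : (ℕ × ℕ) × List Bool => δ3 x.1.1 x.1.2 x.2 := by
    have h1 : Computable fun x : (ℕ × ℕ) × List Bool => decide (x.1.1 % 2 = 0) :=
      (PrimrecPred.decide (Primrec.eq.comp
        (Primrec.nat_mod.comp (Primrec.fst.comp Primrec.fst) (Primrec.const 2))
        (Primrec.const 0))).to_comp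
    have hd : Primrec fun x : (ℕ × ℕ) × List Bool => x.1.1 / 2 :=
      Primrec.nat_div.comp (Primrec.fst.comp Primrec.fst) (Primrec.const 2)
    have h2 : Computable fun x : (ℕ × ℕ) × List Bool =>
        (((x.1.1 / 2, x.1.2), x.2) : (ℕ × ℕ) × List Bool) :=
      ((hd.pair (Primrec.snd.comp Primrec.fst)).pair Primrec.snd).to_comp
    have h3 : Computable fun x : (ℕ × ℕ) × List Bool => δ (x.1.1 / 2) x.1.2 x.2 :=
      Computable.comp (f := fun x : (ℕ × ℕ) × List Bool => δ x.1.1 x.1.2 x.2)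
        (g := fun x : (ℕ × ℕ) × List Bool => (((x.1.1 / 2, x.1.2), x.2) : (ℕ × ℕ) × List Bool))
        hδ h2
    have h4 : Computable fun x : (ℕ × ℕ) × List Bool => (x.1.1 / 2).unpair.1 :=
      (Primrec.fst.comp (Primrec.unpair.comp hd)).to_comp
    have h5 : Computable fun x : (ℕ × ℕ) × List Bool => encode ((x.1.2, x.2) : ℕ × List Bool) :=
      (Primrec.encode.comp ((Primrec.snd.comp Primrec.fst).pair Primrec.snd)).to_comp
    have h6 : Computable fun x : (ℕ × ℕ) × List Bool =>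
        U (x.1.1 / 2).unpair.1 (encode ((x.1.2, x.2) : ℕ × List Bool)) :=
      Computable₂.comp (f := U) (g := fun x : (ℕ × ℕ) × List Bool => (x.1.1 / 2).unpair.1)
        (h := fun x : (ℕ × ℕ) × List Bool => encode ((x.1.2, x.2) : ℕ × List Bool)) hU h4 h5
    have h7 : Computable fun n : ℕ => decide (n = 1) :=
      (PrimrecPred.decide (Primrec.eq.comp Primrec.id (Primrec.const 1))).to_comp
    have h8 : Computable fun x : (ℕ × ℕ) × List Bool =>
        decide (U (x.1.1 / 2).unpair.1 (encode ((x.1.2, x.2) : ℕ × List Bool)) = 1) :=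
      Computable.comp (f := fun n : ℕ => decide (n = 1)) (g := fun x : (ℕ × ℕ) × List Bool =>
        U (x.1.1 / 2).unpair.1 (encode ((x.1.2, x.2) : ℕ × List Bool))) h7 h6
    exact Computable.cond h1 h3 h8
  have hu3 : Computable₂ u3 := by
    have h1 : Computable fun x : ℕ × ℕ => decide (x.1 % 2 = 0) :=
      (PrimrecPred.decide (Primrec.eq.comp
        (Primrec.nat_mod.comp Primrec.fst (Primrec.const 2)) (Primrec.const 0))).to_comp
    have hd : Primrec fun x : ℕ × ℕ => x.1 / 2 := Primrec.nat_div.comp Primrec.fst (Primrec.const 2)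
    have h3 : Computable fun x : ℕ × ℕ => u (x.1 / 2) x.2 := hu.comp hd.to_comp Computable.snd
    have h4 : Computable fun x : ℕ × ℕ => (x.1 / 2).unpair.2 :=
      (Primrec.snd.comp (Primrec.unpair.comp hd)).to_comp
    have h5 : Computable fun x : ℕ × ℕ => U (x.1 / 2).unpair.2 x.2 := hU.comp h4 Computable.snd
    exact Computable.cond h1 h3 h5
  obtain ⟨e, h1, h2⟩ := main_join (δ := δ3) (u := u3) hδ3 hu3
  refine ⟨e, h1, fun Y Y' Z hYZ => h2 Y Y' Z ?_⟩
  rcases hYZ with ⟨i, hi⟩ | ⟨f, v, hf, hv, hfv⟩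
  · refine ⟨2 * i, fun n => ?_⟩
    have e1 : 2 * i % 2 = 0 := by omega
    have e2 : 2 * i / 2 = i := by omega
    rw [hi n]
    simp only [Fam, δ3, u3, e1, e2, decide_true, cond_true]
  · have hF : Primrec fun m : ℕ => encode (f ((decode (α := ℕ × List Bool) m).getD (0, []))) :=
      Primrec.encode.comp (hf.comp (Primrec.option_getD.comp Primrec.decode
        (Primrec.const ((0, []) : ℕ × List Bool))))
    obtain ⟨a, ha⟩ := hUf _ hF
    obtain ⟨b, hb⟩ := hUf _ hv
    refine ⟨2 * Nat.pair a b + 1, fun n => ?_⟩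
    have e1 : ¬ (2 * Nat.pair a b + 1) % 2 = 0 := by omega
    have e2 : (2 * Nat.pair a b + 1) / 2 = Nat.pair a b := by omega
    rw [hfv n]
    simp only [Fam, δ3, u3, e1, e2, decide_false, cond_false, Nat.unpair_pair, ha, hb,
      encodek, Option.getD_some]
    cases f (n, pre Z (v n)) <;> simp

end Pool.Agent.H869R3.RT
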