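import Pool.Agent.H548R2.Post.Main

set_option autoImplicit false

/-!
Solutions to Post's problem invariant under translations by sets which depend on the oracle in a
truth-table way.
-/

namespace Pool.Agent.H869R3.RT

open Encodable Pool.Agent.Helper227 Pool.Agent.H548R2.Post
open Nat.Partrec (Code)

/-- The `i`-th set attached to the oracle `X`: its value at `n` is `δ` of `i`, `n` and the initial
segment of `X` of length `u i n`. -/
def Fam (δ : ℕ → ℕ → List Bool → Bool) (u : ℕ → ℕ → ℕ) (X : ℕ → Bool) (i n : ℕ) : Bool :=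
  δ i n (pre X (u i n))

theorem gen {α : Type} [Primcodable α] {X : ℕ → Bool} {f : α → ℕ} (hf : Computable f)
    {P : α × List Bool → Prop} (hP : S1 P) : SI X fun a : α => P (a, pre X (f a)) := by
  have h2 : SI X fun a : α => ∃ σ : List Bool, (∀ i < σ.length, X i = σ.getD i false) ∧
      σ.length = f a ∧ P (a, σ) := by
    refine SI.ex (p := fun (a : α) (σ : List Bool) =>
      (∀ i < σ.length, X i = σ.getD i false) ∧ σ.length = f a ∧ P (a, σ))
      (SI.and ?_ (SI.and ?_ ?_))
    · refine SI.all_lt (α := α × List Bool) (p := fun x i => X i = x.2.getD i false)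
        (f := fun x => x.2.length) ?_ (Primrec.list_length.comp Primrec.snd)
      exact SI.query.comp (f := fun z : (α × List Bool) × ℕ => (z.2, z.1.2.getD z.2 false))
        (Primrec.snd.pair ((Primrec.list_getD false).comp (Primrec.snd.comp Primrec.fst)
          Primrec.snd))
    · have h3 : S1 fun y : ℕ × ℕ => y.1 = y.2 :=
        S1.of_prim (Primrec.eq.comp Primrec.fst Primrec.snd)
      exact SI.of_s1 (h3.comp_computable (f := fun x : α × List Bool => (x.2.length, f x.1))
        (((Primrec.list_length.comp Primrec.snd).to_comp).pair (hf.comp Computable.fst)))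
    · exact SI.of_s1 hP
  refine h2.of_eq fun a => ?_
  constructor
  · rintro ⟨σ, h3, h4, h5⟩
    have := t42_eq_pre h3
    rw [h4] at this
    rwa [this]
  · intro h
    exact ⟨pre X (f a), fun i hi => (pre_getD X _ _ _ (by simpa using hi)).symm, by simp, h⟩

def tk (σ : List Bool) (n : ℕ) : List Bool := (List.range n).map (fun i => σ.getD i false)

theorem tk_pre {X : ℕ → Bool} {m n : ℕ} (h : n ≤ m) : tk (pre X m) n = pre X n := by
  unfold tk
  conv_rhs => unfold pre
  refine List.map_congr_left fun i hi => ?_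
  exact pre_getD X m i false (lt_of_lt_of_le (List.mem_range.1 hi) h)

theorem tk_comp : Computable fun x : List Bool × ℕ => tk x.1 x.2 := by
  have : Primrec fun x : List Bool × ℕ => tk x.1 x.2 :=
    Primrec.list_map (Primrec.list_range.comp Primrec.snd)
      ((Primrec.list_getD false).comp (Primrec.fst.comp Primrec.fst) Primrec.snd)
  exact this.to_comp

section
variable (δ : ℕ → ℕ → List Bool → Bool) (u : ℕ → ℕ → ℕ)

/-- the family closed under symmetric difference generated by the sets attached to `X` -/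
def Dx (X : ℕ → Bool) (k i : ℕ) : Bool := t48_S (Fam δ u X) k i k

def Dl (σ : List Bool) (k i : ℕ) : Bool := t48_S (fun j n => δ j n (tk σ (u j n))) k i k

def Bs (n : ℕ) : ℕ := Nat.rec 0 (fun q acc => acc + u q.unpair.1 q.unpair.2) n

def NN (s : ℕ) : ℕ := Nat.pair (2 ^ s) s

def MM (s : ℕ) : ℕ := s + Bs u (Nat.pair (NN s) (NN s))

def Ah (σ : List Bool) (s : ℕ) : List ℕ :=
  (tabB (dtab (Dl δ u σ) (NN s)) (tk σ s) s).getD 0 []

end

variable {δ : ℕ → ℕ → List Bool → Bool} {u : ℕ → ℕ → ℕ}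

theorem isGrp_Dx (X : ℕ → Bool) : IsGrp (Dx δ u X) := by
  intro j k i
  change t48_S (Fam δ u X) (j ^^^ k) i (j ^^^ k) =
    xor (t48_S (Fam δ u X) j i j) (t48_S (Fam δ u X) k i k)
  have e1 := t48_S_ge (Fam δ u X) (j ^^^ k) i (j ^^^ k) (max (max j k) (j ^^^ k))
    Nat.lt_two_pow_self (le_max_right _ _)
  have e2 := t48_S_ge (Fam δ u X) j i j (max (max j k) (j ^^^ k)) Nat.lt_two_pow_self
    ((le_max_left _ _).trans (le_max_left _ _))
  have e3 := t48_S_ge (Fam δ u X) k i k (max (max j k) (j ^^^ k)) Nat.lt_two_pow_self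
    ((le_max_right _ _).trans (le_max_left _ _))
  rw [← e1, ← e2, ← e3, t48_S_xor]

theorem Dx_pow (X : ℕ → Bool) (i j : ℕ) : Dx δ u X (2 ^ i) j = Fam δ u X i j := by
  change t48_S (Fam δ u X) (2 ^ i) j (2 ^ i) = Fam δ u X i j
  rw [t48_S_ge (Fam δ u X) (2 ^ i) j (i + 1) (2 ^ i)
    (Nat.pow_lt_pow_right (by norm_num) (Nat.lt_succ_self i))
    Nat.lt_two_pow_self, t48_S_succ, t48_S_pow_lt (Fam δ u X) i j i le_rfl, Nat.testBit_two_pow]
  simp

theorem t48_S_congr {C C' : ℕ → ℕ → Bool} {k i K : ℕ} (h : ∀ j < K, C j i = C' j i) :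
    t48_S C k i K = t48_S C' k i K := by
  induction K with
  | zero => rfl
  | succ K ih =>
    rw [t48_S_succ, t48_S_succ, ih fun j hj => h j (by omega), h K (by omega)]

theorem Bs_le {q n : ℕ} (h : q < n) : u q.unpair.1 q.unpair.2 ≤ Bs u n := by
  induction n with
  | zero => omega
  | succ n ih =>
    have h1 : Bs u (n + 1) = Bs u n + u n.unpair.1 n.unpair.2 := rfl
    rw [h1]
    rcases Nat.lt_succ_iff_lt_or_eq.1 h with h2 | rfl
    · exact (ih h2).trans (Nat.le_add_right _ _)
    · exact Nat.le_add_left _ _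

theorem Dl_eq {X : ℕ → Bool} {s p : ℕ} (hp : p < NN s) :
    Dl δ u (pre X (MM u s)) p.unpair.1 p.unpair.2 = Dx δ u X p.unpair.1 p.unpair.2 := by
  unfold Dl Dx
  refine t48_S_congr fun j hj => ?_
  have h1 : j < NN s := (hj.trans_le (Nat.unpair_left_le p)).trans hp
  have h2 : p.unpair.2 < NN s := (Nat.unpair_right_le p).trans_lt hp
  have h3 : Nat.pair j p.unpair.2 < Nat.pair (NN s) (NN s) :=
    (Nat.pair_lt_pair_left _ h1).trans (Nat.pair_lt_pair_right _ h2)
  have h4 := Bs_le (u := u) h3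
  rw [Nat.unpair_pair] at h4
  have h5 : u j p.unpair.2 ≤ MM u s := by
    unfold MM
    simp only at h4
    omega
  show δ j p.unpair.2 (tk (pre X (MM u s)) (u j p.unpair.2)) = Fam δ u X j p.unpair.2
  rw [tk_pre h5]
  rfl

theorem dtab_eq (X : ℕ → Bool) (s : ℕ) :
    dtab (Dl δ u (pre X (MM u s))) (NN s) = dtab (Dx δ u X) (NN s) := by
  unfold dtab
  refine List.map_congr_left fun p hp => ?_
  exact Dl_eq (List.mem_range.1 hp)

theorem Ah_eq (X : ℕ → Bool) (s : ℕ) : Ah δ u (pre X (MM u s)) s = A (Dx δ u X) s X := by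
  have hs : s ≤ MM u s := Nat.le_add_right _ _
  unfold Ah
  rw [dtab_eq, tk_pre hs]
  have h1 := tabB_eq (isGrp_Dx (δ := δ) (u := u) X) (N := NN s) (σ := pre X s) (by
    intro k hk i hi
    rw [length_pre] at hk hi
    exact (Nat.pair_lt_pair_left _ hk).trans (Nat.pair_lt_pair_right _ hi)) s
    (by rw [length_pre]) 0 (by positivity)
  rw [h1, sh_zero (isGrp_Dx X)]
  have h2 := A_ext_pre (Dx δ u X) s X
  rwa [length_pre] at h2

section comp
variable (hδ : Computable fun x : (ℕ × ℕ) × List Bool => δ x.1.1 x.1.2 x.2) (hu : Computable₂ u)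
include hδ hu

theorem Dl_comp : Computable fun x : List Bool × ℕ × ℕ => Dl δ u x.1 x.2.1 x.2.2 := by
  have hx : Primrec₂ xor := Primrec.dom_bool₂ xor
  have ha : Primrec₂ and := Primrec.dom_bool₂ and
  have hb : Computable₂ Nat.testBit := t48_testBit.to_comp
  have hh : Computable₂ (fun (q : List Bool × ℕ × ℕ) (y : ℕ × Bool) =>
      xor y.2 (q.2.1.testBit y.1 && δ y.1 q.2.2 (tk q.1 (u y.1 q.2.2)))) := by
    have f0 : Computable (fun r : (List Bool × ℕ × ℕ) × (ℕ × Bool) => r.1.1) :=
      Computable.fst.comp Computable.fst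
    have f1 : Computable (fun r : (List Bool × ℕ × ℕ) × (ℕ × Bool) => r.1.2.1) :=
      Computable.fst.comp (Computable.snd.comp Computable.fst)
    have f2 : Computable (fun r : (List Bool × ℕ × ℕ) × (ℕ × Bool) => r.1.2.2) :=
      Computable.snd.comp (Computable.snd.comp Computable.fst)
    have f3 : Computable (fun r : (List Bool × ℕ × ℕ) × (ℕ × Bool) => r.2.1) :=
      Computable.fst.comp Computable.snd
    have f4 : Computable (fun r : (List Bool × ℕ × ℕ) × (ℕ × Bool) => r.2.2) :=
      Computable.snd.comp Computable.snd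
    have g0 : Computable (fun r : (List Bool × ℕ × ℕ) × (ℕ × Bool) => u r.2.1 r.1.2.2) :=
      hu.comp f3 f2
    have g1 : Computable (fun r : (List Bool × ℕ × ℕ) × (ℕ × Bool) =>
        tk r.1.1 (u r.2.1 r.1.2.2)) := tk_comp.comp (f0.pair g0)
    have g2 : Computable (fun r : (List Bool × ℕ × ℕ) × (ℕ × Bool) =>
        δ r.2.1 r.1.2.2 (tk r.1.1 (u r.2.1 r.1.2.2))) := hδ.comp ((f3.pair f2).pair g1)
    have g3 : Computable (fun r : (List Bool × ℕ × ℕ) × (ℕ × Bool) => r.1.2.1.testBit r.2.1) :=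
      hb.comp f1 f3
    have g4 : Computable (fun r : (List Bool × ℕ × ℕ) × (ℕ × Bool) =>
        (r.1.2.1.testBit r.2.1 && δ r.2.1 r.1.2.2 (tk r.1.1 (u r.2.1 r.1.2.2)))) :=
      ha.to_comp.comp g3 g2
    exact hx.to_comp.comp f4 g4
  have h1 := Computable.nat_rec (f := fun q : List Bool × ℕ × ℕ => q.2.1)
    (g := fun _ : List Bool × ℕ × ℕ => false)
    (Computable.fst.comp Computable.snd) (Computable.const false) hh
  exact h1

end comp

end Pool.Agent.H869R3.RT
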