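import Pool.Agent.H869R3.RT.Main

set_option autoImplicit false

/-!
Invariance of the operator.
-/

namespace Pool.Agent.H869R3.RT

open Encodable Pool.Agent.Helper227 Pool.Agent.H548R2.Post
open Nat.Partrec (Code)

theorem tLe_of_fun2 {Y Z Z1 Z2 : ℕ → Bool} {g : ℕ × Bool × Bool → Bool} (hg : Computable g)
    (h1 : TLe Z1 Z) (h2 : TLe Z2 Z) (h : ∀ n, Y n = g (n, Z1 n, Z2 n)) : TLe Y Z := by
  rw [tLe_iff_SI] at h1 h2 ⊢
  have a1 : SI Z fun x : (ℕ × Bool) × Bool × Bool => Z1 x.1.1 = x.2.1 :=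
    h1.comp (f := fun x : (ℕ × Bool) × Bool × Bool => (x.1.1, x.2.1))
      ((Primrec.fst.comp Primrec.fst).pair (Primrec.fst.comp Primrec.snd))
  have a2 : SI Z fun x : (ℕ × Bool) × Bool × Bool => Z2 x.1.1 = x.2.2 :=
    h2.comp (f := fun x : (ℕ × Bool) × Bool × Bool => (x.1.1, x.2.2))
      ((Primrec.fst.comp Primrec.fst).pair (Primrec.snd.comp Primrec.snd))
  have h0 : SI Z fun x : Bool × Bool => x.1 = x.2 :=
    SI.of_prim (Primrec.eq.comp Primrec.fst Primrec.snd)
  have hp : Computable fun x : (ℕ × Bool) × Bool × Bool => ((x.1.1, x.2.1, x.2.2) : ℕ × Bool × Bool) :=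
    (Computable.fst.comp Computable.fst).pair
      ((Computable.fst.comp Computable.snd).pair (Computable.snd.comp Computable.snd))
  have a3 : SI Z fun x : (ℕ × Bool) × Bool × Bool => g (x.1.1, x.2.1, x.2.2) = x.1.2 :=
    h0.comp_computable (f := fun x : (ℕ × Bool) × Bool × Bool => (g (x.1.1, x.2.1, x.2.2), x.1.2))
      ((hg.comp hp).pair (Computable.snd.comp Computable.fst))
  have a4 : SI Z fun x : ℕ × Bool => ∃ c : Bool × Bool, Z1 x.1 = c.1 ∧ Z2 x.1 = c.2 ∧
      g (x.1, c.1, c.2) = x.2 :=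
    SI.ex (p := fun (x : ℕ × Bool) (c : Bool × Bool) => Z1 x.1 = c.1 ∧ Z2 x.1 = c.2 ∧
      g (x.1, c.1, c.2) = x.2) (SI.and a1 (SI.and a2 a3))
  exact a4.of_eq fun x => by
    constructor
    · rintro ⟨c, h4, h5, h6⟩
      rw [h, h4, h5, h6]
    · intro h4
      exact ⟨(Z1 x.1, Z2 x.1), rfl, rfl, by rw [← h]; exact h4⟩

def gg (b : ℕ) (L : List Bool) (p : ℕ × Bool × Bool) : Bool :=
  if p.1 % 2 = 0 then xor p.2.1 p.2.2 else if p.1 / 2 < b then L.getD (p.1 / 2) false else p.2.1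

theorem gg_comp (b : ℕ) (L : List Bool) : Computable (gg b L) := by
  have hdiv : Primrec (fun p : ℕ × Bool × Bool => p.1 / 2) :=
    Primrec.nat_div.comp Primrec.fst (Primrec.const 2)
  have h1 : PrimrecPred (fun p : ℕ × Bool × Bool => p.1 % 2 = 0) :=
    PrimrecRel.comp Primrec.eq (Primrec.nat_mod.comp Primrec.fst (Primrec.const 2))
      (Primrec.const 0)
  have h2 : PrimrecPred (fun p : ℕ × Bool × Bool => p.1 / 2 < b) :=
    PrimrecRel.comp Primrec.nat_lt hdiv (Primrec.const b)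
  have h3 : Primrec (fun p : ℕ × Bool × Bool => xor p.2.1 p.2.2) :=
    (Primrec.dom_bool₂ xor).comp (Primrec.fst.comp Primrec.snd) (Primrec.snd.comp Primrec.snd)
  have h5 : Primrec (fun p : ℕ × Bool × Bool => L.getD (p.1 / 2) false) :=
    (Primrec.list_getD false).comp (Primrec.const L) hdiv
  have h6 : Primrec (fun p : ℕ × Bool × Bool => p.2.1) := Primrec.fst.comp Primrec.snd
  exact (Primrec.ite h1 h3 (Primrec.ite h2 h5 h6)).to_comp

theorem WB_sh_le' {D : ℕ → ℕ → Bool} (hG : IsGrp D) (k : ℕ) (X : ℕ → Bool)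
    (hk : TLe (D k) (WB D X)) : TLe (WB D (sh D k X)) (WB D X) := by
  classical
  obtain ⟨b, hb⟩ := almost_equal hG X k
  let L : List Bool := (List.range b).map (fun z => decide (∃ s, z ∈ A D s (sh D k X)))
  have hk1 : TLe (fun m => D k (m / 2)) (D k) :=
    tLe_of_computable (f := fun m : ℕ => m / 2)
      (Primrec.nat_div.comp Primrec.id (Primrec.const 2)).to_comp (fun n => rfl)
  have hk2 : TLe (fun m => D k (m / 2)) (WB D X) := TuringReducible.trans hk1 hk
  refine tLe_of_fun2 (gg_comp b L) (TuringReducible.refl _) hk2 (fun m => ?_)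
  unfold gg
  rcases Nat.even_or_odd' m with ⟨n, rfl | rfl⟩
  · rw [WB_even, WB_even]
    have h1 : (2 * n) % 2 = 0 := by omega
    have h2 : (2 * n) / 2 = n := by omega
    simp only [h1, h2, if_true]
    rfl
  · have h1 : (2 * n + 1) % 2 = 1 := by omega
    have h2 : (2 * n + 1) / 2 = n := by omega
    simp only [h1, h2]
    rw [if_neg (by norm_num)]
    by_cases hn : n < b
    · rw [if_pos hn]
      have h3 : L.getD n false = decide (∃ s, n ∈ A D s (sh D k X)) := by
        simp [L, List.getD_eq_getElem?_getD, hn]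
      rw [h3]
      have := WB_odd (D := D) (sh D k X) n
      by_cases h4 : ∃ s, n ∈ A D s (sh D k X)
      · rw [this.2 h4]; simp [h4]
      · have h5 : WB D (sh D k X) (2 * n + 1) ≠ true := fun h => h4 (this.1 h)
        have h6 : WB D (sh D k X) (2 * n + 1) = false := by
          cases hh : WB D (sh D k X) (2 * n + 1) with
          | false => rfl
          | true => exact absurd hh h5
        rw [h6]; simp [h4]
    · rw [if_neg hn]
      have h3 := hb n (by omega)
      have h4 := WB_odd (D := D) (sh D k X) n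
      have h5 := WB_odd (D := D) X n
      have h6 : WB D (sh D k X) (2 * n + 1) = true ↔ WB D X (2 * n + 1) = true := by
        rw [h4, h5]; exact h3.symm
      exact Bool.eq_iff_iff.2 h6

/-- `e` is an index of an operator with `X <_T W_e^X <_T X'`, low over `X`, for all `X`. -/
def PostIndex (e : ℕ) : Prop :=
  ∀ X : ℕ → Bool, TLe X (chr (WE X e)) ∧ ¬ TLe (chr (WE X e)) X ∧
    TLe (chr (WE X e)) (jump X) ∧ ¬ TLe (jump X) (chr (WE X e)) ∧
    TLe (jump (chr (WE X e))) (jump X)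

variable {δ : ℕ → ℕ → List Bool → Bool} {u : ℕ → ℕ → ℕ}

theorem key (hδ : Computable fun x : (ℕ × ℕ) × List Bool => δ x.1.1 x.1.2 x.2)
    (hu : Computable₂ u)
    (hinv : ∀ (X : ℕ → Bool) (i j n : ℕ),
      Fam δ u (fun m => xor (X m) (Fam δ u X i m)) j n = Fam δ u X j n)
    {X Y : ℕ → Bool} {i : ℕ} (h : ∀ n, xor (X n) (Y n) = Fam δ u X i n) :
    Fam δ u Y = Fam δ u X ∧ TLe (WB (Dx δ u Y) Y) (WB (Dx δ u X) X) := by
  have hY : Y = fun m => xor (X m) (Fam δ u X i m) := by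
    funext m
    rw [← h m]
    cases X m <;> cases Y m <;> rfl
  have hF : Fam δ u Y = Fam δ u X := by
    funext j n
    rw [hY]
    exact hinv X i j n
  refine ⟨hF, ?_⟩
  have hDx : Dx δ u Y = Dx δ u X := by
    unfold Dx
    rw [hF]
  have hsh : sh (Dx δ u X) (2 ^ i) X = Y := by
    funext m
    rw [hY]
    simp only [sh, Dx_pow]
  rw [hDx]
  have hk : TLe (Dx δ u X (2 ^ i)) (WB (Dx δ u X) X) := by
    have e1 : Dx δ u X (2 ^ i) = Fam δ u X i := funext fun n => Dx_pow X i n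
    rw [e1]
    exact TuringReducible.trans (Fam_le hδ hu X i) (le_WB _ X)
  have := WB_sh_le' (isGrp_Dx (δ := δ) (u := u) X) (2 ^ i) X hk
  rwa [hsh] at this

theorem main_inv (hδ : Computable fun x : (ℕ × ℕ) × List Bool => δ x.1.1 x.1.2 x.2)
    (hu : Computable₂ u)
    (hinv : ∀ (X : ℕ → Bool) (i j n : ℕ),
      Fam δ u (fun m => xor (X m) (Fam δ u X i m)) j n = Fam δ u X j n) :
    ∃ e : ℕ, PostIndex e ∧ ∀ X Y : ℕ → Bool, (∃ i, ∀ n, xor (X n) (Y n) = Fam δ u X i n) →
      TLe (chr (WE X e)) (chr (WE Y e)) ∧ TLe (chr (WE Y e)) (chr (WE X e)) := by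
  obtain ⟨e, he⟩ := exists_index' hδ hu
  refine ⟨e, fun X => ?_, fun X Y => ?_⟩
  · rw [he X, chr_WB]
    exact ⟨le_WB _ X, not_WB_le (isGrp_Dx X) X, Op_le_jump hδ hu X,
      fun h => not_jump_le _ (TuringReducible.trans (low' hδ hu X) h), low' hδ hu X⟩
  · rintro ⟨i, hi⟩
    rw [he X, he Y, chr_WB, chr_WB]
    obtain ⟨h1, h2⟩ := key hδ hu hinv hi
    refine ⟨?_, h2⟩
    refine (key hδ hu hinv (X := Y) (Y := X) (i := i) fun n => ?_).2
    rw [h1, ← hi n, Bool.xor_comm]

end Pool.Agent.H869R3.RT
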