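import Pool.Agent.H869R3.RT.Base

set_option autoImplicit false

/-!
Computability of the construction, and the operator.
-/

namespace Pool.Agent.H869R3.RT

open Encodable Pool.Agent.Helper227 Pool.Agent.H548R2.Post
open Nat.Partrec (Code)

variable {δ : ℕ → ℕ → List Bool → Bool} {u : ℕ → ℕ → ℕ}

section comp
variable (hδ : Computable fun x : (ℕ × ℕ) × List Bool => δ x.1.1 x.1.2 x.2) (hu : Computable₂ u)
include hδ hu

theorem dt_comp : Computable fun x : List Bool × ℕ => dtab (Dl δ u x.1) x.2 := by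
  have h1 : Computable₂ fun (x : List Bool × ℕ) (y : ℕ × List Bool) =>
      y.2 ++ [Dl δ u x.1 y.1.unpair.1 y.1.unpair.2] := by
    have hq : Computable fun r : (List Bool × ℕ) × (ℕ × List Bool) => r.2.1.unpair :=
      Computable.unpair.comp (Computable.fst.comp Computable.snd)
    have hg : Computable fun r : (List Bool × ℕ) × (ℕ × List Bool) =>
        ((r.1.1, r.2.1.unpair.1, r.2.1.unpair.2) : List Bool × ℕ × ℕ) :=
      (Computable.fst.comp Computable.fst).pair
        ((Computable.fst.comp hq).pair (Computable.snd.comp hq))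
    have hf : Computable fun r : (List Bool × ℕ) × (ℕ × List Bool) =>
        Dl δ u r.1.1 r.2.1.unpair.1 r.2.1.unpair.2 :=
      Computable.comp (f := fun x : List Bool × ℕ × ℕ => Dl δ u x.1 x.2.1 x.2.2)
        (g := fun r : (List Bool × ℕ) × (ℕ × List Bool) =>
          ((r.1.1, r.2.1.unpair.1, r.2.1.unpair.2) : List Bool × ℕ × ℕ))
        (Dl_comp hδ hu) hg
    have hs : Computable fun r : (List Bool × ℕ) × (ℕ × List Bool) => r.2.2 :=
      Computable.snd.comp Computable.snd
    have hc : Computable₂ fun (l : List Bool) (b : Bool) => l ++ [b] :=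
      (Primrec.list_concat (α := Bool)).to_comp
    exact Computable₂.comp (f := fun (l : List Bool) (b : Bool) => l ++ [b])
      (g := fun r : (List Bool × ℕ) × (ℕ × List Bool) => r.2.2)
      (h := fun r : (List Bool × ℕ) × (ℕ × List Bool) =>
        Dl δ u r.1.1 r.2.1.unpair.1 r.2.1.unpair.2) hc hs hf
  have h2 := Computable.nat_rec (f := fun x : List Bool × ℕ => x.2)
    (g := fun _ : List Bool × ℕ => ([] : List Bool)) Computable.snd (Computable.const []) h1
  refine h2.of_eq fun x => ?_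
  obtain ⟨σ, N⟩ := x
  induction N with
  | zero => rfl
  | succ N ih =>
    simp only at ih ⊢
    rw [ih]
    simp [dtab, List.range_succ]

omit hδ in
theorem Bs_comp : Computable (Bs u) := by
  have h1 : Computable₂ fun (_ : ℕ) (y : ℕ × ℕ) => y.2 + u y.1.unpair.1 y.1.unpair.2 := by
    have hq : Computable fun r : ℕ × (ℕ × ℕ) => r.2.1.unpair :=
      Computable.unpair.comp (Computable.fst.comp Computable.snd)
    exact Primrec.nat_add.to_comp.comp (Computable.snd.comp Computable.snd)
      (hu.comp (Computable.fst.comp hq) (Computable.snd.comp hq))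
  exact Computable.nat_rec (f := fun n : ℕ => n) (g := fun _ : ℕ => (0 : ℕ))
    Computable.id (Computable.const 0) h1

omit hδ hu in
theorem NN_prim : Primrec fun s : ℕ => NN s :=
  Primrec₂.natPair.comp (primrec_pow.comp (Primrec.const 2) Primrec.id) Primrec.id

omit hδ in
theorem MM_comp : Computable fun s : ℕ => MM u s := by
  have h4 : Computable fun s : ℕ => Nat.pair (NN s) (NN s) :=
    (Primrec₂.comp (f := Nat.pair) (g := fun s : ℕ => NN s) (h := fun s : ℕ => NN s)
      Primrec₂.natPair NN_prim NN_prim).to_comp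
  have h5 : Computable fun s : ℕ => Bs u (Nat.pair (NN s) (NN s)) :=
    Computable.comp (f := Bs u) (g := fun s : ℕ => Nat.pair (NN s) (NN s)) (Bs_comp hu) h4
  have h6 : Computable₂ fun a b : ℕ => a + b := Primrec.nat_add.to_comp
  exact Computable₂.comp (f := fun a b : ℕ => a + b) (g := fun s : ℕ => s)
    (h := fun s : ℕ => Bs u (Nat.pair (NN s) (NN s))) h6 Computable.id h5

theorem Ah_comp : Computable fun x : List Bool × ℕ => Ah δ u x.1 x.2 := by
  have hn : Computable fun x : List Bool × ℕ => NN x.2 :=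
    Computable.comp (f := fun s : ℕ => NN s) (g := fun x : List Bool × ℕ => x.2)
      NN_prim.to_comp Computable.snd
  have hd : Computable fun x : List Bool × ℕ => dtab (Dl δ u x.1) (NN x.2) :=
    Computable.comp (f := fun x : List Bool × ℕ => dtab (Dl δ u x.1) x.2)
      (g := fun x : List Bool × ℕ => ((x.1, NN x.2) : List Bool × ℕ))
      (dt_comp hδ hu) (Computable.fst.pair hn)
  have hg : Computable fun x : List Bool × ℕ =>
      (((dtab (Dl δ u x.1) (NN x.2), tk x.1 x.2), x.2) : (List Bool × List Bool) × ℕ) :=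
    (hd.pair tk_comp).pair Computable.snd
  have ht : Computable fun x : List Bool × ℕ =>
      tabB (dtab (Dl δ u x.1) (NN x.2)) (tk x.1 x.2) x.2 :=
    Computable.comp (f := fun x : (List Bool × List Bool) × ℕ => tabB x.1.1 x.1.2 x.2)
      (g := fun x : List Bool × ℕ =>
        (((dtab (Dl δ u x.1) (NN x.2), tk x.1 x.2), x.2) : (List Bool × List Bool) × ℕ))
      primrec_tabB.to_comp hg
  have h0 : Computable fun l : List (List ℕ) => l.getD 0 [] :=
    ((Primrec.list_getD []).comp Primrec.id (Primrec.const 0)).to_comp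
  exact Computable.comp (f := fun l : List (List ℕ) => l.getD 0 [])
    (g := fun x : List Bool × ℕ => tabB (dtab (Dl δ u x.1) (NN x.2)) (tk x.1 x.2) x.2) h0 ht

theorem idx_S1 : S1 fun x : List Bool × ℕ => (x.2 % 2 = 0 ∧ x.1[x.2 / 2]? = some true) ∨
      (x.2 % 2 = 1 ∧ ∃ s, MM u s = x.1.length ∧ x.2 / 2 ∈ Ah δ u x.1 s) := by
  have hmod : Primrec fun x : List Bool × ℕ => x.2 % 2 :=
    Primrec.nat_mod.comp Primrec.snd (Primrec.const 2)
  have hdiv : Primrec fun x : List Bool × ℕ => x.2 / 2 :=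
    Primrec.nat_div.comp Primrec.snd (Primrec.const 2)
  refine S1.or (S1.of_prim (PrimrecPred.and ?_ ?_)) (S1.and (S1.of_prim ?_) (S1.ex
    (p := fun (x : List Bool × ℕ) (s : ℕ) => MM u s = x.1.length ∧ x.2 / 2 ∈ Ah δ u x.1 s)
    (S1.and ?_ ?_)))
  · exact Primrec.eq.comp hmod (Primrec.const 0)
  · exact Primrec.eq.comp (Primrec.list_getElem?.comp Primrec.fst hdiv) (Primrec.const (some true))
  · exact Primrec.eq.comp hmod (Primrec.const 1)
  · have h3 : S1 fun y : ℕ × ℕ => y.1 = y.2 :=
      S1.of_prim (Primrec.eq.comp Primrec.fst Primrec.snd)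
    have h4 : Computable fun x : (List Bool × ℕ) × ℕ => MM u x.2 :=
      Computable.comp (f := fun s : ℕ => MM u s) (g := fun x : (List Bool × ℕ) × ℕ => x.2)
        (MM_comp hu) Computable.snd
    exact h3.comp_computable (f := fun x : (List Bool × ℕ) × ℕ => (MM u x.2, x.1.1.length))
      (h4.pair (Primrec.list_length.comp (Primrec.fst.comp Primrec.fst)).to_comp)
  · have hm : S1 fun y : ℕ × List ℕ => y.1 ∈ y.2 := S1.of_prim t37_mem
    have h4 : Computable fun x : (List Bool × ℕ) × ℕ => Ah δ u x.1.1 x.2 :=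
      Computable.comp (f := fun x : List Bool × ℕ => Ah δ u x.1 x.2)
        (g := fun x : (List Bool × ℕ) × ℕ => ((x.1.1, x.2) : List Bool × ℕ))
        (Ah_comp hδ hu) ((Computable.fst.comp Computable.fst).pair Computable.snd)
    exact hm.comp_computable (f := fun x : (List Bool × ℕ) × ℕ => (x.1.2 / 2, Ah δ u x.1.1 x.2))
      (((hdiv.comp Primrec.fst).to_comp).pair h4)

theorem exists_index' : ∃ e : ℕ, ∀ X : ℕ → Bool, WE X e = {m | WB (Dx δ u X) X m = true} := by
  have hE := idx_S1 hδ hu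
  obtain ⟨c, hc⟩ := Nat.Partrec.Code.exists_code.1 hE.re
  refine ⟨encode c, fun X => ?_⟩
  ext m
  simp only [WE, Set.mem_ofPred_eq, Denumerable.ofNat_encode]
  have h1 : (∃ k : ℕ, (c.eval (encode ((List.range k).map X, m))).Dom) ↔
      ∃ k : ℕ, (m % 2 = 0 ∧ (pre X k)[m / 2]? = some true) ∨
      (m % 2 = 1 ∧ ∃ s, MM u s = (pre X k).length ∧ m / 2 ∈ Ah δ u (pre X k) s) := by
    refine exists_congr fun k => ?_
    rw [hc]
    simp [Part.assert, pre]
  rw [h1]
  have h2 : ∀ k : ℕ, (pre X k)[m / 2]? = some true ↔ m / 2 < k ∧ X (m / 2) = true := by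
    intro k
    unfold pre
    rw [List.getElem?_map]
    by_cases hk : m / 2 < k
    · rw [List.getElem?_eq_getElem (by simpa using hk)]
      simp [hk]
    · rw [List.getElem?_eq_none (by simpa using hk)]
      simp [hk]
  have h5 : WB (Dx δ u X) X m = true ↔
      (if m % 2 = 0 then X (m / 2) = true else ∃ s, m / 2 ∈ A (Dx δ u X) s X) := by
    unfold WB
    split_ifs
    · exact Iff.rfl
    · simp only [decide_eq_true_eq]
  rw [h5]
  constructor
  · rintro ⟨k, ⟨h3, h4⟩ | ⟨h3, s, h6, h4⟩⟩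
    · rw [if_pos h3]
      exact ((h2 k).1 h4).2
    · rw [if_neg (by omega)]
      rw [length_pre] at h6
      rw [← h6, Ah_eq] at h4
      exact ⟨s, h4⟩
  · intro h
    by_cases h3 : m % 2 = 0
    · rw [if_pos h3] at h
      exact ⟨m / 2 + 1, Or.inl ⟨h3, (h2 _).2 ⟨by omega, h⟩⟩⟩
    · rw [if_neg h3] at h
      obtain ⟨s, hs⟩ := h
      refine ⟨MM u s, Or.inr ⟨by omega, s, by rw [length_pre], ?_⟩⟩
      rw [Ah_eq]
      exact hs

theorem Op_le_jump (X : ℕ → Bool) : TLe (WB (Dx δ u X) X) (jump X) := by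
  obtain ⟨e, he⟩ := exists_index' hδ hu
  have h0 : SI X fun m : ℕ => WB (Dx δ u X) X m = true := by
    have h1 : SI X fun m : ℕ => m ∈ WE X e := SI.iff_ceIn.1 (ceIn_iff_exists_WE.2 ⟨e, rfl⟩)
    refine h1.of_eq fun m => ?_
    rw [he X]
    exact Iff.rfl
  rw [tLe_iff_SI]
  obtain ⟨h2, h3⟩ := h0.decide_jump
  have h4 : SI (jump X) fun x : ℕ × Bool =>
      (WB (Dx δ u X) X x.1 = true ∧ x.2 = true) ∨ (¬ WB (Dx δ u X) X x.1 = true ∧ x.2 = false) := by
    refine SI.or (SI.and (h2.comp Primrec.fst) (SI.of_prim ?_))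
      (SI.and (h3.comp (f := fun x : ℕ × Bool => x.1) Primrec.fst) (SI.of_prim ?_))
    · exact Primrec.eq.comp Primrec.snd (Primrec.const true)
    · exact Primrec.eq.comp Primrec.snd (Primrec.const false)
  refine h4.of_eq fun x => ?_
  rcases x with ⟨n, b⟩
  cases b <;> simp

omit hδ hu in
theorem En_key (X : ℕ → Bool) (e s : ℕ) :
    En s e e (jn (ext (tk (pre X (MM u s)) s)) (Ah δ u (pre X (MM u s)) s)) ↔
      En s e e (jn X (A (Dx δ u X) s X)) := by
  have hs : s ≤ MM u s := Nat.le_add_right _ _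
  rw [Ah_eq, tk_pre hs]
  exact t42_En_congr fun i hi => t42_jn _ hi

theorem low' (X : ℕ → Bool) : TLe (jump (WB (Dx δ u X) X)) (jump X) := by
  have hc : Computable fun y : (ℕ × ℕ) × List Bool =>
      (((y.1.2, y.1.1, y.1.1), tk y.2 y.1.2, Ah δ u y.2 y.1.2) :
        (ℕ × ℕ × ℕ) × List Bool × List ℕ) := by
    have h1 : Computable fun y : (ℕ × ℕ) × List Bool => ((y.1.2, y.1.1, y.1.1) : ℕ × ℕ × ℕ) :=
      ((Primrec.snd.comp Primrec.fst).pair
        ((Primrec.fst.comp Primrec.fst).pair (Primrec.fst.comp Primrec.fst))).to_comp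
    have h2 : Computable fun y : (ℕ × ℕ) × List Bool => ((y.2, y.1.2) : List Bool × ℕ) :=
      Computable.snd.pair (Computable.snd.comp Computable.fst)
    have h3 : Computable fun y : (ℕ × ℕ) × List Bool => tk y.2 y.1.2 :=
      Computable.comp (f := fun x : List Bool × ℕ => tk x.1 x.2)
        (g := fun y : (ℕ × ℕ) × List Bool => ((y.2, y.1.2) : List Bool × ℕ)) tk_comp h2
    have h4 : Computable fun y : (ℕ × ℕ) × List Bool => Ah δ u y.2 y.1.2 :=
      Computable.comp (f := fun x : List Bool × ℕ => Ah δ u x.1 x.2)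
        (g := fun y : (ℕ × ℕ) × List Bool => ((y.2, y.1.2) : List Bool × ℕ)) (Ah_comp hδ hu) h2
    exact h1.pair (h3.pair h4)
  have hf : Computable fun x : ℕ × ℕ => MM u x.2 :=
    Computable.comp (f := fun s : ℕ => MM u s) (g := fun x : ℕ × ℕ => x.2)
      (MM_comp hu) Computable.snd
  have h1 : SI X fun x : ℕ × ℕ => En x.2 x.1 x.1 (jn X (A (Dx δ u X) x.2 X)) := by
    have hP := (S1.of_prim primrec_En).comp_computable hc
    exact (gen (X := X) hf hP).of_eq fun x => En_key X x.1 x.2
  have h2 : SI X fun x : ℕ × ℕ => ¬ En x.2 x.1 x.1 (jn X (A (Dx δ u X) x.2 X)) := by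
    have hP := (S1.of_prim (PrimrecPred.not primrec_En)).comp_computable hc
    exact (gen (X := X) hf hP).of_eq fun x => not_congr (En_key X x.1 x.2)
  exact tLe_jump_of_limit (p := fun e s => En s e e (jn X (A (Dx δ u X) s X))) h1 h2
    (fun e he => jump_true X e he) (fun e he => jump_false (isGrp_Dx X) X e he)

theorem Fam_le (X : ℕ → Bool) (i : ℕ) : TLe (Fam δ u X i) X := by
  rw [tLe_iff_SI]
  have hf : Computable fun x : ℕ × Bool => u i x.1 := hu.comp (Computable.const i) Computable.fst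
  have h0 : S1 fun y : Bool × Bool => y.1 = y.2 :=
    S1.of_prim (Primrec.eq.comp Primrec.fst Primrec.snd)
  have hP : S1 fun y : (ℕ × Bool) × List Bool => δ i y.1.1 y.2 = y.1.2 :=
    h0.comp_computable (f := fun y : (ℕ × Bool) × List Bool => (δ i y.1.1 y.2, y.1.2))
      ((hδ.comp (((Computable.const i).pair (Computable.fst.comp Computable.fst)).pair
        Computable.snd)).pair (Computable.snd.comp Computable.fst))
  exact gen (X := X) hf hP

end comp

end Pool.Agent.H869R3.RT
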